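import Mathlib
import Pool.Agent.Helper611.BS.PartA
import Pool.Agent.Helper611.BS.PartB

set_option autoImplicit false

namespace Pool.Agent.Results.MP_0f1375_an.TopDerivative

open MeasureTheory

/-- Q1 for the top derivative `k = n - 1` and `p = 2` (all `n`, all nodes), and Q1 for `n = 2`
(all `p ≥ 1`, all nodes). -/
theorem result :
    ∀ (n : ℕ) (xs : Fin n → ℝ), 2 ≤ n → Function.Injective xs →
      (∀ i, xs i ∈ Set.Icc (-1 : ℝ) 1) →
      ∀ p : ℝ, 1 ≤ p → (p = 2 ∨ n = 2) →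
      ∀ f : ℝ → ℝ, ContDiff ℝ ((n - 1 : ℕ) : WithTop ℕ∞) f →
        LipschitzOnWith 1 (iteratedDeriv (n - 1) f) (Set.Icc (-1 : ℝ) 1) →
        (∀ i, f (xs i) = 0) →
        ∫ x in (-1 : ℝ)..1, |iteratedDeriv (n - 1) f x| ^ p ≤
          ∫ x in (-1 : ℝ)..1,
            |iteratedDeriv (n - 1) (fun y => (∏ i, (y - xs i)) / (n.factorial : ℝ)) x| ^ p := by
  intro n xs hn hx hx1 p hp hcase f hf hlip h0
  by_cases h2 : n = 2
  · subst h2
    have e : ∀ y : ℝ, iteratedDeriv (2 - 1) (fun y => (∏ i, (y - xs i)) /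
        ((2 : ℕ).factorial : ℝ)) y = y - (xs 0 + xs 1) / 2 := by
      intro y
      have := Pool.H611.BS.omega_deriv 0 xs y
      simpa [Fin.sum_univ_two] using this
    simp_rw [e]
    have e1 : iteratedDeriv (2 - 1) f = deriv f := iteratedDeriv_one
    rw [e1] at hlip ⊢
    exact Pool.H611.BS.partB xs hx hx1 p hp f (by simpa using hf) hlip h0
  · have hp2 : p = 2 := by tauto
    subst hp2
    obtain ⟨q, rfl⟩ : ∃ q, n = q + 3 := ⟨n - 3, by omega⟩
    have e : ∀ y : ℝ, iteratedDeriv (q + 3 - 1) (fun y => (∏ i, (y - xs i)) /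
        ((q + 3 : ℕ).factorial : ℝ)) y = y - (∑ i, xs i) / ((q + 1 : ℕ) + 2) :=
      fun y => Pool.H611.BS.omega_deriv (q + 1) xs y
    simp_rw [e]
    have h := Pool.H611.BS.partA q xs hx hx1 f hf hlip h0
    have e2 : ∀ t : ℝ, |t| ^ (2 : ℝ) = t ^ 2 := fun t => by
      rw [Real.rpow_two, sq_abs]
    simp_rw [e2]
    exact h

end Pool.Agent.Results.MP_0f1375_an.TopDerivative
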